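import Pool.Agent.Lib_helper90.Packing.Asymp

/-!
# Packing equal-length progressions with prime differences

`M_{ℙ(n)}(n) ∼ n ^ 3 / (6 ln n)`. The definitions are in
`Pool/Agent/Lib_helper90/Packing/Defs.lean`.
-/

set_option autoImplicit false

open Pool.Agent.Lib_helper90.Packing

namespace Pool.Agent.Results.MP_a180f1_co.PrimePacking

theorem result : Filter.Tendsto
    (fun n : ℕ => (packM n (primesUpTo n) : ℝ) * Real.log n / (n : ℝ) ^ 3)
    Filter.atTop (nhds (1 / 6)) :=
  tendsto_packM

end Pool.Agent.Results.MP_a180f1_co.PrimePacking
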